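import Mathlib
import Pool.Agent.H25.INS.NRSub

set_option autoImplicit false

namespace Pool.Agent.Results.MP_e45a60_co.LogSubdivision

/-- `H` is a subdivision of `G`: it is obtained from `G` by replacing each edge `uv` by a path from
`u` to `v` whose internal vertices are new and distinct for distinct edges. -/
structure Subdivision {V W : Type} (G : SimpleGraph V) (H : SimpleGraph W) where
  /-- the vertices of `G` inside `H` -/
  vertex : V → W
  /-- the path that replaces the edge `uv` -/
  path : ∀ {u v : V}, G.Adj u v → H.Walk (vertex u) (vertex v)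
  injective : Function.Injective vertex
  isPath : ∀ {u v : V} (h : G.Adj u v), (path h).IsPath
  /-- one path for each edge: read from `v` to `u` it is the same path -/
  reverse : ∀ {u v : V} (h : G.Adj u v), path h.symm = (path h).reverse
  /-- internal vertices are new -/
  new : ∀ {u v : V} (h : G.Adj u v) (x : V), vertex x ∈ (path h).support → x = u ∨ x = v
  /-- internal vertices are distinct for distinct edges -/
  distinct : ∀ {u v u' v' : V} (h : G.Adj u v) (h' : G.Adj u' v') (w : W),
    w ∈ (path h).support → w ∈ (path h').support → s(u, v) ≠ s(u', v') → ∃ x, w = vertex x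
  /-- there are no other vertices -/
  vertices : ∀ w : W, (∃ x, w = vertex x) ∨ ∃ (u v : V) (h : G.Adj u v), w ∈ (path h).support
  /-- there are no other edges -/
  edges : ∀ w w' : W, H.Adj w w' → ∃ (u v : V) (h : G.Adj u v), s(w, w') ∈ (path h).edges

/-- no path of `H` with an even number `2 * t` of vertices is repetitive under `c` -/
def Nonrepetitive {W C : Type} (H : SimpleGraph W) (c : W → C) : Prop :=
  ∀ (a b : W) (p : H.Walk a b) (t : ℕ), p.IsPath → 1 ≤ t → p.length + 1 = 2 * t →
    ∃ i < t, c (p.getVert i) ≠ c (p.getVert (t + i))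

/-- from all lists of `k` colours, of any kind, there is a nonrepetitive colouring -/
def NonrepetitivelyChoosable {W : Type} (H : SimpleGraph W) (k : ℕ) : Prop :=
  ∀ (C : Type) (L : W → Finset C), (∀ w, (L w).card = k) →
    ∃ c : W → C, (∀ w, c w ∈ L w) ∧ Nonrepetitive H c

/-- Every finite graph `G` has a nonrepetitively 4-choosable subdivision; one may replace every
edge by a path of length `100 K + 11`, for any `K ≥ 100 + 3 ⌊log₂ |V(G)|⌋`. -/
theorem result (V : Type) [Fintype V] (G : SimpleGraph V) (K : ℕ)
    (hK : 100 + 3 * Nat.log 2 (Fintype.card V) ≤ K) :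
    ∃ (W : Type) (_ : Fintype W) (H : SimpleGraph W) (S : Subdivision G H),
      (∀ (u v : V) (h : G.Adj u v), (S.path h).length = 100 * K + 11) ∧
        NonrepetitivelyChoosable H 4 := by
  obtain ⟨W, hW, H, f, P, h1, h2, h3, h4, h5, h6, h7⟩ := Pool.Agent.H25.INS.sub_exists V G K hK
  exact ⟨W, hW, H, ⟨f, fun {u v} h => P u v h, h1, fun h => (h2 _ _ h).1, fun h => (h2 _ _ h).2.2,
    fun h x => h3 _ _ h x, fun h h' w => h4 _ _ h _ _ h' w, h5, h6⟩,
    fun u v h => (h2 u v h).2.1, h7⟩

end Pool.Agent.Results.MP_e45a60_co.LogSubdivision
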